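import Pool.Agent.helper99.ZR.Spec

set_option autoImplicit false
set_option linter.unusedVariables false

namespace Pool.Agent.ZR

open Finset
open Pool.Agent.helper32.Cant
open Pool.Agent.GA (nrm chi ch St sg flp Psi rc ph pot rpot far nc gf ncs gfs good mj om pick pat et kap mult)
open scoped ENNReal

noncomputable section

theorem LW1_exp {x : ℝ} (h0 : 0 ≤ x) (h1 : x ≤ 2 / 3) : Real.exp x - 1 ≤ 2 * x := by
  have h2 : Real.exp (2 / 3) ≤ 2 := by
    have h3 : Real.exp (2 / 3) ^ 3 ≤ 2 ^ 3 := by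
      rw [← Real.exp_nat_mul]
      have h4 : ((3 : ℕ) : ℝ) * (2 / 3) = 1 + 1 := by norm_num
      rw [h4, Real.exp_add]
      have h5 := Real.exp_one_lt_d9
      have h6 := Real.exp_pos 1
      nlinarith
    exact le_of_pow_le_pow_left₀ (by norm_num) (by norm_num) h3
  have h3 := convexOn_exp.2 (Set.mem_univ (0 : ℝ)) (Set.mem_univ (2 / 3 : ℝ))
    (show 0 ≤ 1 - 3 / 2 * x by linarith) (show 0 ≤ 3 / 2 * x by linarith) (by ring)
  simp only [smul_eq_mul, mul_zero, zero_add, Real.exp_zero, mul_one] at h3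
  have h4 : 3 / 2 * x * (2 / 3) = x := by ring
  rw [h4] at h3
  nlinarith [mul_le_mul_of_nonneg_left h2 (show 0 ≤ 3 / 2 * x by linarith)]

theorem LW1_near (gCHI : Pool.Agent.GA.CHI_stmt) {M : ℕ} [NeZero M] {ℓ δ : ℝ} (hℓ : 0 < ℓ)
    (hδ0 : 0 ≤ δ) (hδ : δ ≤ 1 / 3) (v : ZMod M) (d : ℕ) (hd : (d : ℝ) ≤ 2 * δ * ℓ) :
    |chi ℓ (v + (d : ZMod M)) - chi ℓ v| ≤ 4 * δ * chi ℓ v := by
  have h1 := (gCHI M ℓ hℓ).2.1 v (d : ℤ)
  have h2 := ((gCHI M ℓ hℓ).1 v).1
  have e1 : (((d : ℤ)) : ZMod M) = (d : ZMod M) := by push_cast; rfl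
  have e2 : |(((d : ℤ)) : ℝ)| / ℓ ≤ 2 * δ := by
    rw [div_le_iff₀ hℓ]
    have : |(((d : ℤ)) : ℝ)| = d := by simp
    rw [this]
    exact hd
  have e3 : 0 ≤ |(((d : ℤ)) : ℝ)| / ℓ := by positivity
  rw [e1] at h1
  generalize |(((d : ℤ)) : ℝ)| / ℓ = x at h1 e2 e3
  have h3 := LW1_exp e3 (by linarith)
  have h4 : 1 - Real.exp (-x) ≤ Real.exp x - 1 := by
    have := Real.add_one_le_exp (-x)
    have := Real.add_one_le_exp x
    linarith
  rw [abs_le]
  constructor
  · nlinarith [h1.1, mul_le_mul_of_nonneg_right h4 h2.le, mul_le_mul_of_nonneg_right h3 h2.le,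
      mul_le_mul_of_nonneg_right e2 h2.le]
  · nlinarith [h1.2, mul_le_mul_of_nonneg_right h3 h2.le, mul_le_mul_of_nonneg_right e2 h2.le]

theorem LW1 (gCHI : Pool.Agent.GA.CHI_stmt) : LW1_stmt := by
  intro n X _ c κ k w t v hκk hkn hv
  have hL : ((3 ^ (2 * n - (k + 1)) : ℕ) : ℝ) = 1 / 3 ^ (k + 1 - κ) * (3 : ℝ) ^ (2 * n - κ) := by
    have e : 2 * n - κ = (2 * n - (k + 1)) + (k + 1 - κ) := by omega
    rw [e, pow_add]
    push_cast
    field_simp
  set L : ℕ := 3 ^ (2 * n - (k + 1)) with hLdef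
  set ℓ : ℝ := (3 : ℝ) ^ (2 * n - κ) with hℓdef
  have hℓ : 0 < ℓ := by positivity
  set δ : ℝ := 1 / 3 ^ (k + 1 - κ) with hδdef
  have hδ0 : 0 ≤ δ := by positivity
  have hδ : δ ≤ 1 / 3 := by
    rw [hδdef]
    refine one_div_le_one_div_of_le (by norm_num) ?_
    calc (3 : ℝ) = 3 ^ 1 := by norm_num
      _ ≤ 3 ^ (k + 1 - κ) := pow_le_pow_right₀ (by norm_num) (by omega)
  have hchi0 : 0 < chi ℓ v := ((gCHI (3 ^ (2 * n)) ℓ hℓ).1 v).1
  have hchi3 : 1 ≤ 3 * chi ℓ v := by
    have h1 : nrm v / ℓ ≤ 1 := by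
      rw [div_le_one hℓ]
      exact hv.le
    have h2 : Real.exp (-1) ≤ chi ℓ v := by
      unfold Pool.Agent.GA.chi
      exact Real.exp_le_exp.2 (by linarith)
    have h3 : Real.exp (-1) * Real.exp 1 = 1 := by
      rw [← Real.exp_add]
      norm_num
    have h4 := Real.exp_one_lt_d9
    have h5 := Real.exp_pos (-1)
    nlinarith
  -- the two indicators
  set A : X → ℝ := fun z => ind ((um c (0, w) z - t).val < L) with hA
  set B : X → ℝ := fun z => ind ((um c (0, w) z - t - (L : ZMod (3 ^ (2 * n)))).val < L) with hB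
  have hF1 : FI c L w t = ∑ z, c.a z * A z := rfl
  have hF2 : FI c L w (t + (L : ZMod (3 ^ (2 * n)))) = ∑ z, c.a z * B z := by
    unfold FI
    refine Finset.sum_congr rfl fun z _ => ?_
    rw [hB]
    simp only
    rw [sub_add_eq_sub_sub]
  have hum : ∀ z, um c (v - t, w) z = v + (um c (0, w) z - t) := by
    intro z
    unfold um
    simp only
    ring
  have hDM : DM c κ k (v - t, w) v =
      ∑ z, c.a z * chi ℓ (v + (um c (0, w) z - t)) * (A z - B z) := by
    unfold DM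
    refine Finset.sum_congr rfl fun z _ => ?_
    unfold wm
    rw [hum z]
    have e : v + (um c (0, w) z - t) - v = um c (0, w) z - t := by ring
    rw [e]
  have hz : ∀ z, |c.a z * (chi ℓ (v + (um c (0, w) z - t)) - chi ℓ v) * (A z - B z)| ≤
      4 * δ * chi ℓ v * (c.a z * A z + c.a z * B z) := by
    intro z
    have ha := c.pos z
    have hAB : (A z = 0 ∨ A z = 1) ∧ (B z = 0 ∨ B z = 1) := by
      refine ⟨?_, ?_⟩
      · rw [hA]
        simp only [ind]
        split_ifs <;> simp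
      · rw [hB]
        simp only [ind]
        split_ifs <;> simp
    have hne : A z = 1 ∨ B z = 1 → |chi ℓ (v + (um c (0, w) z - t)) - chi ℓ v| ≤
        4 * δ * chi ℓ v := by
      rintro (h | h)
      · have h1 : (um c (0, w) z - t).val < L := by
          by_contra hcon
          rw [hA] at h
          simp only [ind, if_neg hcon] at h
          norm_num at h
        have h2 := LW1_near gCHI hℓ hδ0 hδ v (um c (0, w) z - t).val (by
          have : ((um c (0, w) z - t).val : ℝ) ≤ (L : ℝ) := by exact_mod_cast h1.le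
          nlinarith)
        rwa [ZMod.natCast_zmod_val] at h2
      · have h1 : (um c (0, w) z - t - (L : ZMod (3 ^ (2 * n)))).val < L := by
          by_contra hcon
          rw [hB] at h
          simp only [ind, if_neg hcon] at h
          norm_num at h
        have h2 := LW1_near gCHI hℓ hδ0 hδ v
          (L + (um c (0, w) z - t - (L : ZMod (3 ^ (2 * n)))).val) (by
          have h3 : ((um c (0, w) z - t - (L : ZMod (3 ^ (2 * n)))).val : ℝ) ≤ (L : ℝ) := by
            exact_mod_cast h1.le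
          push_cast at hL h3 ⊢
          nlinarith)
        have e : ((L + (um c (0, w) z - t - (L : ZMod (3 ^ (2 * n)))).val : ℕ) :
            ZMod (3 ^ (2 * n))) = um c (0, w) z - t := by
          rw [Nat.cast_add, ZMod.natCast_zmod_val]
          ring
        rwa [e] at h2
    rw [abs_mul, abs_mul, abs_of_pos ha]
    rcases hAB with ⟨hA0 | hA1, hB0 | hB1⟩
    · rw [hA0, hB0]
      simp
    · rw [hA0, hB1]
      have h1 := mul_le_mul_of_nonneg_left (hne (Or.inr hB1)) ha.le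
      have e : |(0 : ℝ) - 1| = 1 := by norm_num
      rw [e]
      linarith
    · rw [hA1, hB0]
      have h1 := mul_le_mul_of_nonneg_left (hne (Or.inl hA1)) ha.le
      have e : |(1 : ℝ) - 0| = 1 := by norm_num
      rw [e]
      linarith
    · rw [hA1, hB1]
      have e : |(1 : ℝ) - 1| = 0 := by norm_num
      rw [e, mul_zero]
      positivity
  have hsplit : chi ℓ v * (FI c L w t - FI c L w (t + (L : ZMod (3 ^ (2 * n))))) =
      DM c κ k (v - t, w) v -
        ∑ z, c.a z * (chi ℓ (v + (um c (0, w) z - t)) - chi ℓ v) * (A z - B z) := by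
    rw [hF1, hF2, hDM, ← Finset.sum_sub_distrib, ← Finset.sum_sub_distrib, Finset.mul_sum]
    refine Finset.sum_congr rfl fun z _ => ?_
    ring
  have hsum : |∑ z, c.a z * (chi ℓ (v + (um c (0, w) z - t)) - chi ℓ v) * (A z - B z)| ≤
      4 * δ * chi ℓ v * (FI c L w t + FI c L w (t + (L : ZMod (3 ^ (2 * n))))) := by
    refine (Finset.abs_sum_le_sum_abs _ _).trans ((Finset.sum_le_sum fun z _ => hz z).trans ?_)
    rw [← Finset.mul_sum, Finset.sum_add_distrib, hF1, hF2]
  have h1 : chi ℓ v * |FI c L w t - FI c L w (t + (L : ZMod (3 ^ (2 * n))))| ≤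
      |DM c κ k (v - t, w) v| +
        4 * δ * chi ℓ v * (FI c L w t + FI c L w (t + (L : ZMod (3 ^ (2 * n))))) := by
    have h2 : chi ℓ v * |FI c L w t - FI c L w (t + (L : ZMod (3 ^ (2 * n))))| =
        |chi ℓ v * (FI c L w t - FI c L w (t + (L : ZMod (3 ^ (2 * n)))))| := by
      rw [abs_mul, abs_of_pos hchi0]
    rw [h2, hsplit]
    refine (abs_sub _ _).trans ?_
    exact add_le_add le_rfl hsum
  have h2 : |DM c κ k (v - t, w) v| ≤ chi ℓ v * (3 * |DM c κ k (v - t, w) v|) := by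
    nlinarith [abs_nonneg (DM c κ k (v - t, w) v)]
  have h3 : chi ℓ v * |FI c L w t - FI c L w (t + (L : ZMod (3 ^ (2 * n))))| ≤
      chi ℓ v * (3 * |DM c κ k (v - t, w) v| +
        4 / 3 ^ (k + 1 - κ) * (FI c L w t + FI c L w (t + (L : ZMod (3 ^ (2 * n)))))) := by
    have e : (4 : ℝ) / 3 ^ (k + 1 - κ) = 4 * δ := by rw [hδdef]; ring
    rw [e]
    linarith
  exact le_of_mul_le_mul_left h3 hchi0

end

end Pool.Agent.ZR
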